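import Pool.Agent.U3.SD.SpecGeo

/-!
# Chow-Kunneth decompositions and algebraic self-correspondences

`𝒱` is a class of smooth projective geometrically irreducible varieties over the field `k` closed
under products (for example all of them over `ℂ`), `C` the Chow groups with rational coefficients
(in the form of their formal properties, `IsChowProj`), `H` a Weil cohomology theory (`IsWeilProj`,
for example singular cohomology), and `X` a variety of dimension `d`.

1. `X` has a Chow-Kunneth decomposition if and only if there is a self-correspondence `b` of degree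
   zero which satisfies a polynomial equation `P(b) = 0` over `ℚ` modulo rational equivalence and
   has no common eigenvalue on `H^m(X)` and `H^n(X)` for `m ≠ n` (`Separates`). No finiteness or
   nilpotency of the ring of correspondences is assumed, and nonzero motives without cohomology are
   not excluded.
2. For such `b` the decomposition can be chosen to commute with all correspondences commuting
   with `b`.
3. `X` has a self-dual Chow-Kunneth decomposition if and only if `b` can be chosen normal, that is,
   commuting with its transpose.
4. For such `b` the self-dual decomposition can be chosen to commute with all correspondences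
   commuting with `b` and its transpose.
5. In particular, if `f : X ⟶ X` is an endomorphism of degree `l ≠ 0` such that `f^*` is algebraic
   over `ℚ` modulo rational equivalence and has no common eigenvalue on `H^m(X)` and `H^n(X)` for
   `m ≠ n`, then `X` has a self-dual Chow-Kunneth decomposition commuting with `f^*` and `f_*`. (Over
   `ℂ` the condition on the eigenvalues holds for all polarised endomorphisms, `f^* L ≅ L^q`,
   `q > 1`; for the multiplications on abelian varieties `f^*` is algebraic.)
-/

open CategoryTheory AlgebraicGeometry

set_option autoImplicit false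

universe u v w

namespace Pool.Agent.Results.MP_524776_ag.AlgebraicCorrespondence

open Pool.Agent.H914 Pool.Agent.W492.BB Pool.Agent.TH133 Pool.Agent.U3.SD

/-- Chow-Kunneth decompositions exist if and only if the degrees of the cohomology are separated by
a self-correspondence which is algebraic over `ℚ` modulo rational equivalence. -/
theorem result {k : Type u} [Field k] {𝒱 : VarClass k} (C : TheoryData.{u, v, 0} 𝒱 ℚ)
    [IsChowProj C] {K : Type w} [Field K] (H : WeilTheoryData.{u, v, w} C K) [IsWeilProj H]
    (X : 𝒱.Obj) :
    ((∃ π : ℕ → C.A (X.prod X), IsCK H X π) ↔ ∃ b : C.A (X.prod X), Separates H b) ∧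
    (∀ b : C.A (X.prod X), Separates H b → ∃ π : ℕ → C.A (X.prod X), IsCK H X π ∧
      ∀ z : C.A (X.prod X), C.comp z b = C.comp b z → ∀ n, C.comp z (π n) = C.comp (π n) z) ∧
    ((∃ π : ℕ → C.A (X.prod X), IsCK H X π ∧ IsSelfDual C π) ↔
      ∃ b : C.A (X.prod X), Separates H b ∧ C.comp b (tp C b) = C.comp (tp C b) b) ∧
    (∀ b : C.A (X.prod X), Separates H b → C.comp b (tp C b) = C.comp (tp C b) b →
      ∃ π : ℕ → C.A (X.prod X), IsCK H X π ∧ IsSelfDual C π ∧
      ∀ z : C.A (X.prod X), C.comp z b = C.comp b z → C.comp z (tp C b) = C.comp (tp C b) z →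
        ∀ n, C.comp z (π n) = C.comp (π n) z) ∧
    (∀ (f : X ⟶ X) (l : ℚ), l ≠ 0 → C.push f 1 = l • 1 → Separates H (C.cograph f) →
      ∃ π : ℕ → C.A (X.prod X), IsCK H X π ∧ IsSelfDual C π ∧ ∀ n,
        C.comp (C.graph f) (π n) = C.comp (π n) (C.graph f) ∧
        C.comp (C.cograph f) (π n) = C.comp (π n) (C.cograph f)) := by
  refine ⟨⟨?_, ?_⟩, fun b hb => exists_CK_of_separates hb, ⟨?_, ?_⟩,
    fun b hb hn => exists_SD_of_separates hb hn, fun f l hl hf h => exists_SD_of_endo f hl hf h⟩
  · rintro ⟨π, h⟩
    obtain ⟨b, hb, -⟩ := separates_of_CK h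
    exact ⟨b, hb⟩
  · rintro ⟨b, hb⟩
    obtain ⟨π, h, -⟩ := exists_CK_of_separates hb
    exact ⟨π, h⟩
  · rintro ⟨π, h, hs⟩
    obtain ⟨b, hb, hn⟩ := separates_of_CK h
    exact ⟨b, hb, hn hs⟩
  · rintro ⟨b, hb, hn⟩
    obtain ⟨π, h, hs, -⟩ := exists_SD_of_separates hb hn
    exact ⟨π, h, hs⟩

end Pool.Agent.Results.MP_524776_ag.AlgebraicCorrespondence
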