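import Pool.Agent.U981.EQ.Main

/-!
# Chow-Künneth decompositions compatible with group actions, and quotients

Let `𝒱` be a class of smooth projective varieties over a field `k` which is closed under products,
with the Chow groups `C` with rational coefficients and a Weil cohomology theory `H`. We consider
triples `(G, X, ρ)` of a group `G`, a variety `X` and self-correspondences `ρ g` of `X` (in the main
examples an action of `G` on `X` by automorphisms, and `ρ g` is the graph of `g`). Let `Built` be the
smallest class of triples which contains

* the actions of finite groups on the motives of varieties of surface type (the diagonal is a sum of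
  correspondences which factor through surfaces: surfaces, curves, rationally connected
  threefolds, ...),
* the actions of finite groups on the motives of varieties of finite type (homologically trivial
  correspondences are nilpotent, and there is a Chow-Künneth decomposition: abelian varieties,
  varieties dominated by products of curves, ...),
* the actions on complete intersections of dimension `≥ 1` which fix the hyperplane class,

and which is closed under

* products `X × Y`, with the diagonal action,
* powers `X^n`, with the groups which permute the factors and act on the factors by a given group,
* sums of twisted summands which are cut out by linear combinations of the `ρ g` (blow-ups,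
  projective bundles, quotients, ...).

**Theorem.** (1) For all `(G, X, ρ)` in the class `X` has a Chow-Künneth decomposition which commutes
with all `ρ g`. (2) If a group `G` acts on `X` by automorphisms and `(G, X)` is in the class, then so is
`(G, X/N)` for all finite normal subgroups `N` such that `X/N` is in `𝒱`. (3) If `G` is finite,
all smooth quotients `X/G` have Chow-Künneth decompositions. For example, let `G` act on surfaces,
curves, abelian varieties, complete intersections `X_i`; then all smooth models of
`(X_1 × ⋯ × X_n)/G` which are quotients of iterated blow-ups of `X_1 × ⋯ × X_n` in `G`-stable
subvarieties in the class have Chow-Künneth decompositions; the same holds for groups which also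
permute equal factors.

Note that there is in general no Chow-Künneth decomposition of `X` which commutes with a given action
for free: the average of a decomposition is not a decomposition. For surface type we use that the
ring of self-correspondences is triangular with respect to Murre's decomposition (library,
`X308.S`): idempotents which commute with the group are lifted along a nilpotent ideal; the average
is a lift in the centraliser of the group. For products the motives are not of surface type and
not known to be finite-dimensional.
-/

set_option autoImplicit false

open CategoryTheory AlgebraicGeometry

universe u v w

namespace Pool.Agent.Results.MP_524776_ag.QuotientsOfProducts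

open Pool.Agent.H914 Pool.Agent.H914.VarClass Pool.Agent.H914.VarClass.Obj Pool.Agent.W492.BB
  Pool.Agent.W550.Corr Pool.Agent.TH133 Pool.Agent.X308.S Pool.Agent.U981.EQ

/-- **Equivariant Chow-Künneth decompositions, and quotients.** -/
theorem result {k : Type u} [Field k] {𝒱 : VarClass k} {C : TheoryData.{u, v, 0} 𝒱 ℚ} {K : Type w}
    [Field K] [IsChowProj C] {H : WeilTheoryData.{u, v, w} C K} [IsWeilProj H]
    (hS : SurfaceProperties H) :
    -- (1) the decomposition
    (∀ (G : Type) [Group G] (X : 𝒱.Obj) (ρ : G → C.A (X.prod X)), Built H G X ρ →
      ∃ π : ℕ → C.A (X.prod X), IsCK H X π ∧
        ∀ (g : G) (i : ℕ), C.comp (ρ g) (π i) = C.comp (π i) (ρ g)) ∧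
    -- (2) quotients by normal subgroups
    (∀ (G : Type) [Group G] (N : Subgroup G) [Fintype N] (X Z : 𝒱.Obj) (a : G → (X ⟶ X))
      (b : G → (Z ⟶ Z)) (q : X ⟶ Z), ActsBy a → ActsBy b → (∀ g, a g ≫ q = q ≫ b g) →
      IsQuotient C (fun n : N => a n) q → Built H G X (fun g => C.graph (a g)) →
      Built H G Z (fun g => C.graph (b g))) ∧
    -- (3) quotients by finite groups
    (∀ (G : Type) [Group G] [Fintype G] (X Z : 𝒱.Obj) (a : G → (X ⟶ X)) (q : X ⟶ Z),
      IsQuotient C a q → Built H G X (fun g => C.graph (a g)) →
      ∃ π : ℕ → C.A (Z.prod Z), IsCK H Z π) :=
  ⟨fun _ _ _ _ h => hasEqCK_of_built hS h,
    fun _ _ N _ _ _ _ _ _ ha hb hab hq h => built_quotient N ha hb hab hq h,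
    fun _ _ _ _ _ _ _ hq h => exists_ck_quotient hS hq h⟩

end Pool.Agent.Results.MP_524776_ag.QuotientsOfProducts
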