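import Pool.Agent.U724.CH.Sym

/-!
# MP_524776_ag: Chow–Künneth decompositions which are fixed by a group of symmetries

Let `X` be a smooth projective variety over a field `k`, and `e` the intersection with a divisor class
on `X`, a nilpotent self-correspondence of `X`. A Chow–Künneth decomposition `π_i` (`i ∈ ℤ`; the class of
`π_i` is the projector to `H ^ (dim X + i) (X)`) is of Lefschetz type for `e` if
`e π_i = π_(i + 2) e` and there is a correspondence `f` with `f π_(i + 2) = π_i f` and
`[e, f] = ∑ i π_i`; it is self-dual if `π_(-i)` is the transpose of `π_i`. (Curves, surfaces, abelian
varieties by Künnemann, ... have such decompositions.)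

Theorem. Let `G` be a group which acts on `CH (X × X)` with finite orbits by symmetries: additive maps
which are compatible with the composition of correspondences, with transposition and with the grading of
the cohomology, and which fix `e`.
(1) If `X` has a Chow–Künneth decomposition of Lefschetz type for `e`, then it has a self-dual one
which is fixed by `G` (all `π_i`, and `f`).
(2) Two decompositions of Lefschetz type for `e` which are fixed by `G` are conjugate by a unit
`1 + ν` of the ring of correspondences which is fixed by `G`, where `ν` is homologically trivial,
nilpotent and raises the index.

Examples. (a) A finite group `G` of automorphisms of `X` over `k` which fixes the divisor class acts by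
`a ↦ g a g ^ (-1)`. So the decomposition can be chosen such that all `π_i` commute with `G`; then the
quotient `X / G` and the parts of the motive `h (X)` which belong to the irreducible representations of `G`
have Chow–Künneth decompositions. (b) Let `X` be defined over a subfield `k₀` of which `k` is the
separable closure. The Galois group `G` of `k` over `k₀` acts on `CH (X × X)` with finite orbits, the fixed
elements are the correspondences defined over `k₀`, and so a decomposition of Lefschetz type over `k`
gives one over `k₀`. (c) Both together, for instance forms of `X` over `k₀`.

For Chow–Künneth decompositions which are not of Lefschetz type neither (a) nor (b) is known unless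
the motive is finite-dimensional: the average of projectors is not a projector. No finiteness condition
on motives and none of the standard conjectures is assumed here.

Idea of the proof. `X` has a decomposition of Lefschetz type for `e` if and only if there is a `z` in
`CH (X × X)` such that `[[e, z], e] = 2 e` and the class of `[e, z]` is the weight operator. These
conditions are affine linear in `z`, so the average of the orbit of `z` is a fixed solution, and so is
the average of it and its transpose. The theorem of Jacobson and Morozov, applied in the algebra of the
fixed correspondences (of infinite dimension), gives the decomposition; (2) is the conjugacy of such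
decompositions (`MP_10f4af_ag.UnipotentConjugation`, the case `G = 1`) in the algebra of the fixed
correspondences.

The setting. The Chow group `Chow X` of a scheme `X` (cycles of all dimensions with rational
coefficients modulo rational equivalence) is defined with the order of vanishing of Mathlib.
Intersection theory enters through the category `C` of Chow motives over `k` with the correspondences
of all degrees as morphisms: a symmetric monoidal category with objects `h (X)` for the varieties `X`
over `k`, self-dual, with `Hom (1, h (X)) = Chow X` and `h (X × Y) = h (X) ⊗ h (Y)` (structure
`Motives`). `R` is a Weil cohomology with coefficient field `K` of characteristic zero, a tensor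
functor from `C` to super vector spaces; `W` is the operator on the cohomology of `X` which is the
multiplication by `i - dim X` on `H ^ i (X)`.
-/

set_option autoImplicit false

open CategoryTheory MonoidalCategory Module
open Pool.Agent.Y112.SR Pool.Agent.U724.CH

namespace Pool.Agent.Results.MP_524776_ag.SymmetricDecompositions

universe u u' v w t

/-- If there is a Chow–Künneth decomposition of Lefschetz type for `e`, then there is a self-dual one
which is fixed by the group `G` of symmetries; two fixed decompositions are conjugate by a fixed
unit. -/
theorem result {k : Type u} [Field k] {C : Type u'} [Category.{v} C] [Preadditive C]
    [MonoidalCategory C] [MonoidalPreadditive C] [SymmetricCategory C]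
    [Linear ℚ C] [MonoidalLinear ℚ C] (M : Motives k C)
    {K : Type w} [Field K] [CharZero K] (R : SuperRealisation C K)
    (X : Sch k) (hX : M.IsVar X) (W : Module.End K (M.Coh R X)) (hW : M.IsWeight R hX W)
    (e : Chow (prod X X).left) (he : M.IsTranspose hX e e) (N : ℕ) (hN : M.ring hX e ^ N = 0)
    (G : Type t) [Group G] [MulAction G (Chow (prod X X).left)]
    (hG : M.ActsBySymmetries R hX W e G) :
    (M.HasLCK R hX W e N → ∃ π f, M.IsLCK R hX W e N π f ∧
      (∀ i, M.IsTranspose hX (π i) (π (-i))) ∧ IsFixed G π f) ∧
    (∀ π π' f f', M.IsLCK R hX W e N π f → M.IsLCK R hX W e N π' f' → IsFixed G π f →
      IsFixed G π' f' → ∃ ν, M.IsConj R hX e N π π' ν ∧ ∀ g : G, g • ν = ν) :=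
  ⟨fun h => hG.exists_lck hW he hN h, fun _ _ _ _ h h' h1 h2 =>
    hG.unique hW.span hN h h' h1.1 h1.2 h2.1 h2.2⟩

end Pool.Agent.Results.MP_524776_ag.SymmetricDecompositions
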