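import Pool.Agent.U724.CH.Sq

/-!
# MP_524776_ag: Chow–Künneth decompositions of symmetric and exterior squares

Let `X` be a smooth projective variety of dimension `d` over a field `k`, and `e` the intersection with
an ample divisor class on `X`, a nilpotent self-correspondence of `X`. A Chow–Künneth decomposition `π_i`
(`i ∈ ℤ`; the class of `π_i` is the projector to `H ^ (d + i) (X)`) is of Lefschetz type for `e` if
`e π_i = π_(i + 2) e` and there is a correspondence `f` with `f π_(i + 2) = π_i f` and
`[e, f] = ∑ i π_i`; it is self-dual if `π_(-i)` is the transpose of `π_i`. (Curves, surfaces, abelian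
varieties by Künnemann, ... have such decompositions.) The same makes sense for a direct summand
`(Y, P)` of the motive of a variety `Y` (`P` an idempotent correspondence which commutes with `e`): the
`π_i` and `f` are in `P ∘ CH (Y × Y) ∘ P` and `∑ π_i = P`.

Theorem. Let `P = (Δ + κ τ) / 2` where `τ` is the transposition of the factors of `X × X` and `κ = 1` or
`κ = -1`, so that `(X × X, P)` is the symmetric square (`κ = 1`) or the exterior square (`κ = -1`) of the
motive of `X`. Then `(X × X, P)` has a Chow–Künneth decomposition of Lefschetz type for
`e × Δ + Δ × e` if and only if `X` has a (self-dual) one for `e`.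

For `κ = 1` the summand `(X × X, P)` is the motive of the symmetric product `X ^ (2) = (X × X) / S_2`.
So if one of `X ^ (2)`, `Sym ^ 2`, `Λ ^ 2` has a decomposition of Lefschetz type, then so have `X`, the
products `X ^ n`, the other square, and so on. No finite-dimensionality of motives and none of
the standard conjectures is assumed.

The interesting direction is the one from the square to `X`. The variety `X` is not fibred or dominated
in a way which is compatible with the projector `P`, and `X` is not a direct summand of the square
with the same `e` in an evident way (for `e` and `e × Δ + Δ × e`). If `[E, z] = h` and `h E - E h = 2 P E`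
is a solution for the square (`E = e × Δ + Δ × e`), then the sum `Φ(z)` of the compressions
`b ξ ^ q z ξ ^ p a` over `p + q = d`, where `ξ = Δ × e`, `a` is the exterior product with `α = [X]` and `b`
the projection with the class of a point, satisfies `[[e, Φ(z)], e] = c e + 2 κ ∑ e ^ p α β e ^ q` (sum over
`p + q = d + 1`; `β` is the functional on `h (X)` given by `α`). The error term can be integrated twice: for
`F = ∑ (p + 1) (q + 1) e ^ p α β e ^ q` (sum over `p + q = d - 1`) we have
`[[e, F], e] = 2 ∑ e ^ p α β e ^ q`, and the error of the action of `[e, Φ(z)]` on the cohomology is
exactly the action of `κ [e, F]`. So `Φ(z) - κ F`, divided by `c / 2`, is a solution for `X`, and the theorem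
of Jacobson and Morozov, in the ring of correspondences (of infinite dimension), gives the
decomposition.

The setting. The Chow group `Chow X` of a scheme `X` (cycles of all dimensions with rational
coefficients modulo rational equivalence) is defined with the order of vanishing of Mathlib.
Intersection theory enters through the category `C` of Chow motives over `k` with the correspondences
of all degrees as morphisms: a symmetric monoidal category with objects `h (X)` for the varieties `X`
over `k`, self-dual, with `Hom (1, h (X)) = Chow X` and `h (X × Y) = h (X) ⊗ h (Y)` (structure
`Motives`). `R` is a Weil cohomology with coefficient field `K` of characteristic zero, a tensor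
functor from `C` to super vector spaces; `W` is the operator on the cohomology of `X` which is the
multiplication by `i` on `H ^ (d + i) (X)`, and `W'` the one of `X × X`.
-/

set_option autoImplicit false

open CategoryTheory MonoidalCategory Module
open Pool.Agent.Y112.SR Pool.Agent.U724.CH

namespace Pool.Agent.Results.MP_524776_ag.SymmetricSquares

universe u u' v w

/-- The symmetric (`κ = 1`) or exterior (`κ = -1`) square of the motive of `X` has a Chow–Künneth
decomposition of Lefschetz type for `e × Δ + Δ × e` if and only if `X` has a self-dual one
for `e`. -/
theorem result {k : Type u} [Field k] {C : Type u'} [Category.{v} C] [Preadditive C]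
    [MonoidalCategory C] [MonoidalPreadditive C] [SymmetricCategory C]
    [Linear ℚ C] [MonoidalLinear ℚ C] (M : Motives k C)
    {K : Type w} [Field K] [CharZero K] (R : SuperRealisation C K)
    (X : Sch k) (hX : M.IsVar X) (W : Module.End K (M.Coh R X)) (hW : M.IsWeight R hX W)
    (W' : Module.End K (M.Coh R (prod X X)))
    (hW' : M.IsWeight R (M.isVar_prod X X hX hX) W') (hs : M.IsSumWeight R hX hX W W W')
    (e : Chow (prod X X).left) (d : ℕ) (α : Chow X.left) (he : M.IsAmple R hX W e d α)
    (κ : ℤˣ) :
    M.HasLCKOn R (M.isVar_prod X X hX hX) W' (M.squareProj hX κ)
      (M.box hX hX e (M.diag hX) + M.box hX hX (M.diag hX) e) (2 * d + 1) ↔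
      M.LefschetzCK R hX W e (d + 1) :=
  M.lck_square R hX hW hW'.span hs he κ

end Pool.Agent.Results.MP_524776_ag.SymmetricSquares
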